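import Pool.Agent.W2helper82.OA.Stm

/-!
# OA piece P10 : the thick path leaves through the corridor (`S_COR`)
-/

set_option autoImplicit false

namespace Pool.Agent.W2helper82.OA.P10

open H974 H12S Finset H984P H984N
open Pool.Agent.Y989.FR (Awy AE)
open Pool.Agent.W2helper82.OA

theorem sd_nonneg (x v : Vtx) : 0 ≤ sd x v := le_max_of_le_left (abs_nonneg _)

theorem sd_le_iff (x v : Vtx) (n : ℤ) : sd x v ≤ n ↔ |x.1 - v.1| ≤ n ∧ |x.2 - v.2| ≤ n :=
  max_le_iff

theorem awy_mono {M M' B k k' : ℕ} {v d x : Vtx} (hM : M ≤ M') (hk : k ≤ k')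
    (h : Awy M B k v d x) : Awy M' B k' v d x := by
  unfold Awy at *
  refine lt_of_lt_of_le h ?_
  have h0 := sd_nonneg x d
  have h1 : (((8 * k : ℕ) : ℤ)) ^ (B - 1) ≤ ((8 * k' : ℕ) : ℤ) ^ (B - 1) :=
    pow_le_pow_left₀ (by positivity) (by push_cast; omega) _
  have h2 : (M : ℤ) ≤ M' := by exact_mod_cast hM
  gcongr

/-- a bound `sd x v < M sd x d` suffices -/
theorem awy_of {M B k : ℕ} {v d x : Vtx} (hB : 1 ≤ B) (hk : 0 < k) (hxv : sd x v ≤ 8 * k)
    (h : sd x v < M * sd x d) : Awy M B k v d x := by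
  unfold Awy
  obtain ⟨b, rfl⟩ : ∃ b, B = b + 1 := ⟨B - 1, by omega⟩
  have h0 := sd_nonneg x v
  simp only [Nat.add_sub_cancel]
  have hp : (0 : ℤ) < ((8 * k : ℕ) : ℤ) ^ b := by positivity
  have h1 : sd x v ^ b ≤ ((8 * k : ℕ) : ℤ) ^ b := pow_le_pow_left₀ h0 (by push_cast; exact hxv) _
  calc sd x v ^ (b + 1) = sd x v ^ b * sd x v := pow_succ _ _
    _ ≤ ((8 * k : ℕ) : ℤ) ^ b * sd x v := by gcongr
    _ < ((8 * k : ℕ) : ℤ) ^ b * (M * sd x d) := by
        exact mul_lt_mul_of_pos_left h hp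
    _ = M * ((8 * k : ℕ) : ℤ) ^ b * sd x d := by ring

theorem row_reach (G : Set Edg) (y : ℤ) (a : ℤ) (n : ℕ)
    (h : ∀ x : ℤ, a - n ≤ x → x < a → ((x, y, true) : Edg) ∈ G) : Reach G (a, y) (a - n, y) := by
  induction n with
  | zero => simpa using Reach.refl G (a, y)
  | succ n ih =>
    refine (ih (fun x h1 h2 => h x (by push_cast; omega) h2)).trans (Adj.reach ?_)
    refine ⟨(a - (n + 1 : ℕ), y, true), h _ (by omega) (by push_cast; omega), Or.inr ⟨?_, ?_⟩⟩
    · simp
    · simp only [tgt_true, Prod.mk.injEq, and_true]; push_cast; omega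

theorem s_cor : S_COR := by
  intro z g s c M B N K Q G v hg hgs hsK hsN hB hc1 hc2 hCen hIn hC hQ
  obtain ⟨o, ho⟩ : ∃ o, o = og z g s := ⟨_, rfl⟩
  rw [← ho] at hCen hIn hQ
  have hz1 : z.1 = o.1 - 3 * g := by rw [ho]; simp [og]
  have hz2 : z.2 = o.2 - 12 * s := by rw [ho]; simp [og]
  clear ho
  have hgZ : (0 : ℤ) < g := by exact_mod_cast hg
  have hgsZ : (64 : ℤ) * g ≤ s := by exact_mod_cast hgs
  have hsKZ : (s : ℤ) ≤ K * g := by exact_mod_cast hsK
  have hsNZ : (s : ℤ) ≤ N := by exact_mod_cast hsN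
  have hc1Z : (10 : ℤ) * g ≤ c := by exact_mod_cast hc1
  have hc2Z : (c : ℤ) + 10 * g ≤ s := by exact_mod_cast hc2
  obtain ⟨hCen1, hCen2⟩ := hCen
  have hv1 : 7 * (s : ℤ) ≤ 16 * (v.1 - o.1) ∧ 16 * (v.1 - o.1) ≤ 9 * s := by
    have := abs_le.mp (show |2 * (v.1 - o.1) - s| ≤ |2 * (v.1 - o.1) - s| from le_rfl)
    omega
  have hv2 : 7 * (s : ℤ) ≤ 16 * (v.2 - o.2) ∧ 16 * (v.2 - o.2) ≤ 9 * s := by
    have := abs_le.mp (show |2 * (v.2 - o.2) - s| ≤ |2 * (v.2 - o.2) - s| from le_rfl)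
    omega
  -- (i)
  have hdang : ∀ u, Reach Q z u → inR o.1 (o.1 + s) o.2 (o.2 + s) u → Dang o s G u := by
    intro u hu hin
    obtain ⟨w, hw1, hw2, hw3⟩ := first_exit hin hu.symm (by omega)
    refine ⟨w, hw1, hw2, hw3.mono ?_⟩
    rintro e ⟨he1, he2⟩
    refine ⟨hQ ⟨he1, ?_⟩, he2⟩
    unfold IE B0
    simp only [Finset.coe_union, Set.mem_union]
    exact Or.inl he2
  -- (ii)
  have hcor : ∀ u, Reach Q z u → o.1 - 4 * g ≤ u.1 → u.1 ≤ o.1 + 3 * g →
      |u.2 - (o.2 + c)| ≤ 2 * g → False := by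
    intro u hu h1 h2 h3
    rw [abs_le] at h3
    have hin : inR (o.1 - 5 * g) (o.1 + 3 * g) (o.2 + c - 3 * g) (o.2 + c + 3 * g) u := by
      unfold inR; omega
    obtain ⟨w, hw1, hw2, hw3⟩ := first_exit hin hu.symm (by omega)
    have hwz : Reach Q z w := hu.trans (hw3.mono Set.inter_subset_left)
    have hw3' : Reach (↑G ∩ ↑(RE (o.1 - 5 * g) (o.1 + 3 * g) (o.2 + c - 3 * g)
        (o.2 + c + 3 * g))) u w := by
      refine hw3.mono ?_
      rintro e ⟨he1, he2⟩
      refine ⟨hQ ⟨he1, ?_⟩, he2⟩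
      unfold IE
      simp only [Finset.coe_union, Set.mem_union]
      exact Or.inr he2
    obtain ⟨⟨hw4, hw5⟩, hw6, hw7⟩ := hw1
    rcases hw2 with hw2 | hw2 | hw2 | hw2
    · have := hC w hwz
      omega
    · refine hIn.nod w (hdang w hwz (by unfold inR; omega)) ?_ ?_
      · unfold Deep inR; omega
      · rw [abs_le]; omega
    · -- bottom
      obtain ⟨x1, x2, k1, k2, k3, -⟩ := sub_TB (a := o.1 - 5 * g) (b := o.1 + 3 * g)
        (c := o.2 + c - 3 * g) (d := o.2 + c - 2 * g) (by omega)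
        (by rintro x y ⟨-, h⟩ _ _; simp only [mem_coe, mem_RE_false] at h; omega)
        (by rintro x y ⟨-, h⟩ _ _; simp only [mem_coe, mem_RE_true] at h; omega)
        hw3'.symm hw2.le (by omega)
      exact hIn.wl ⟨x1, x2, k1, k2, k3.mono (by rintro e ⟨⟨h7, -⟩, h8⟩; exact ⟨h7, h8⟩)⟩
    · obtain ⟨x1, x2, k1, k2, k3, -⟩ := sub_TB (a := o.1 - 5 * g) (b := o.1 + 3 * g)
        (c := o.2 + c + 2 * g) (d := o.2 + c + 3 * g) (by omega)
        (by rintro x y ⟨-, h⟩ _ _; simp only [mem_coe, mem_RE_false] at h; omega)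
        (by rintro x y ⟨-, h⟩ _ _; simp only [mem_coe, mem_RE_true] at h; omega)
        hw3' (by omega) hw2.ge
      exact hIn.wu ⟨x1, x2, k1, k2, k3.mono (by rintro e ⟨⟨h7, -⟩, h8⟩; exact ⟨h7, h8⟩)⟩
  -- (iii)
  obtain ⟨x, hx, hp⟩ := hIn.pth
  have hN0 : 0 < 2 * N := by omega
  -- vertices of the inner part
  have hin : ∀ w : Vtx, inR (o.1 + 2 * g) (o.1 + s - 2 * g) (o.2 + 2 * g) (o.2 + s - 2 * g) w →
      (∀ d, Dang o s G d → Deep o g s d → Awy M B (2 * s) v d w) →
      ∀ d, Reach Q z d → Awy (M + 4 * K + 4) B (2 * N) v d w := by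
    intro w hw hA d hd
    by_cases hdeep : Deep o g s d
    · refine awy_mono (by omega) (by omega) (hA d (hdang d hd ?_) hdeep)
      unfold Deep inR at hdeep
      unfold inR
      omega
    · have hsd : (g : ℤ) ≤ sd w d := by
        by_contra hcon
        push Not at hcon
        have h1 : sd w d ≤ g - 1 := by omega
        rw [sd_le_iff, abs_le, abs_le] at h1
        apply hdeep
        unfold Deep inR
        unfold inR at hw
        omega
      have hwv : sd w v ≤ s := by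
        rw [sd_le_iff, abs_le, abs_le]
        unfold inR at hw
        omega
      refine awy_of hB hN0 ?_ ?_
      · push_cast; omega
      · have h1 : (s : ℤ) ≤ K * sd w d := by
          calc (s : ℤ) ≤ K * g := hsKZ
            _ ≤ K * sd w d := by gcongr
        have h2 : 0 < sd w d := by omega
        push_cast
        nlinarith [mul_nonneg (Int.natCast_nonneg M) h2.le, mul_nonneg (Int.natCast_nonneg K) h2.le]
  -- vertices of the row
  have hrow : ∀ a : ℤ, v.1 - 2 * N ≤ a → a ≤ o.1 + 2 * g →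
      ∀ d, Reach Q z d → Awy (M + 4 * K + 4) B (2 * N) v d (a, o.2 + c) := by
    intro a h1 h2 d hd
    have hd1 := hC d hd
    have hsg : (g : ℤ) ≤ sd (a, o.2 + c) d := by
      by_contra hcon
      push Not at hcon
      have h3 : sd (a, o.2 + c) d ≤ g - 1 := by omega
      rw [sd_le_iff, abs_le, abs_le] at h3
      simp only at h3
      refine hcor d hd (by omega) (by omega) ?_
      rw [abs_le]; omega
    have hsD : o.1 - 3 * g - a ≤ sd (a, o.2 + c) d := by
      have h3 : d.1 - a ≤ |a - d.1| := by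
        have := neg_abs_le (a - d.1); omega
      have h4 : |a - d.1| ≤ sd (a, o.2 + c) d := le_max_left _ _
      omega
    have hwv : sd (a, o.2 + c) v ≤ 2 * N := by
      rw [sd_le_iff, abs_le, abs_le]
      simp only
      omega
    refine awy_of hB hN0 ?_ ?_
    · push_cast; omega
    · have h3 : sd (a, o.2 + c) v ≤ s + sd (a, o.2 + c) d := by
        rw [sd_le_iff, abs_le, abs_le]
        simp only
        omega
      have h4 : (s : ℤ) ≤ K * sd (a, o.2 + c) d := by
        calc (s : ℤ) ≤ K * g := hsKZ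
          _ ≤ K * sd (a, o.2 + c) d := by gcongr
      have h5 : 0 < sd (a, o.2 + c) d := by omega
      push_cast
      nlinarith [mul_nonneg (Int.natCast_nonneg M) h5.le, mul_nonneg (Int.natCast_nonneg K) h5.le]
  refine ⟨x, hx, (v.1 - 2 * N, o.2 + c), ?_, ?_⟩
  · unfold bdB
    simp only [Set.mem_ofPred_eq]
    refine ⟨?_, ?_, Or.inl ?_⟩
    · rw [abs_le]; push_cast; omega
    · rw [abs_le]; push_cast; omega
    · rw [abs_of_nonpos (by omega)]; push_cast; ring
  · refine Reach.trans (v := (o.1 + 2 * g, o.2 + c)) (hp.mono ?_) ?_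
    · rintro e ⟨he1, he2, he3⟩
      have hsrc : inR (o.1 + 2 * g) (o.1 + s - 2 * g) (o.2 + 2 * g) (o.2 + s - 2 * g) (src e) := by
        obtain ⟨a, b, _ | _⟩ := e
        · rw [mem_RE_false] at he1; unfold inR; simp only [src_mk]; omega
        · rw [mem_RE_true] at he1; unfold inR; simp only [src_mk]; omega
      have htgt : inR (o.1 + 2 * g) (o.1 + s - 2 * g) (o.2 + 2 * g) (o.2 + s - 2 * g) (tgt e) := by
        obtain ⟨a, b, _ | _⟩ := e
        · rw [mem_RE_false] at he1; unfold inR; simp only [tgt_false]; omega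
        · rw [mem_RE_true] at he1; unfold inR; simp only [tgt_true]; omega
      refine ⟨?_, ?_, ?_⟩
      · unfold AE
        simp only [Finset.coe_sdiff, Set.mem_sdiff, Finset.mem_coe]
        refine ⟨?_, he2⟩
        unfold blk
        obtain ⟨a, b, _ | _⟩ := e
        · rw [mem_RE_false] at he1 ⊢; push_cast; omega
        · rw [mem_RE_true] at he1 ⊢; push_cast; omega
      · exact hin _ hsrc (fun d h1 h2 => (he3 d h1 h2).1)
      · exact hin _ htgt (fun d h1 h2 => (he3 d h1 h2).2)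
    · obtain ⟨n, hn⟩ : ∃ n : ℕ, o.1 + 2 * g - n = v.1 - 2 * N :=
        ⟨(o.1 + 2 * g - (v.1 - 2 * N)).toNat, by omega⟩
      rw [← hn]
      refine row_reach _ _ _ _ ?_
      intro a h1 h2
      refine ⟨?_, ?_, ?_⟩
      · unfold AE blk
        simp only [Finset.coe_sdiff, Set.mem_sdiff, Finset.mem_coe, mem_RE_true]
        push_cast
        omega
      · exact hrow a (by omega) (by omega)
      · exact hrow (a + 1) (by omega) (by omega)

end Pool.Agent.W2helper82.OA.P10
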