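import Pool.Agent.W2helper82.OA.Stm

/-!
# OA piece P5 : the explored clusters near `z` (`S_NDET`)
-/

set_option autoImplicit false

namespace Pool.Agent.W2helper82.OA.P5

open H974 H12S Finset H984P H984N
open Pool.Agent.Y989.FR (Awy AE)
open Pool.Agent.W2helper82.OA

theorem sd_nonneg (x v : Vtx) : 0 ≤ sd x v := le_max_of_le_left (abs_nonneg _)

theorem sd_le_iff (x v : Vtx) (n : ℤ) : sd x v ≤ n ↔ |x.1 - v.1| ≤ n ∧ |x.2 - v.2| ≤ n :=
  max_le_iff

/-- a path along which an invariant is preserved -/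
theorem reach_inv {G : Set Edg} {P : Vtx → Prop} {u v : Vtx} (h : Reach G u v) (hu : P u)
    (hs : ∀ w w', Reach G u w → Adj G w w' → P w → P w') :
    Reach (G ∩ GrV {w | P w}) u v ∧ P v := by
  have key : ∀ w, Reach G u w → Reach (G ∩ GrV {w | P w}) u w ∧ P w := by
    intro w hw
    induction hw with
    | refl => exact ⟨Reach.refl _ _, hu⟩
    | @tail w w' hw hst ih =>
      have hw' := hs w w' hw hst ih.2
      refine ⟨ih.1.trans (Adj.reach ?_), hw'⟩
      obtain ⟨e, he, hc⟩ := hst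
      refine ⟨e, ⟨he, ?_⟩, hc⟩
      rcases hc with ⟨h1, h2⟩ | ⟨h1, h2⟩
      · exact ⟨by rw [h1]; exact ih.2, by rw [h2]; exact hw'⟩
      · exact ⟨by rw [h1]; exact hw', by rw [h2]; exact ih.2⟩
  exact key v h

/-- adjacent vertices differ by a unit step -/
theorem adj_step {G : Set Edg} {w w' : Vtx} (h : Adj G w w') :
    (w'.1 = w.1 ∧ (w'.2 = w.2 + 1 ∨ w'.2 = w.2 - 1)) ∨
      (w'.2 = w.2 ∧ (w'.1 = w.1 + 1 ∨ w'.1 = w.1 - 1)) := by
  obtain ⟨⟨x, y, _ | _⟩, -, hc⟩ := h
  · simp only [src_mk, tgt_false] at hc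
    rcases hc with ⟨h1, h2⟩ | ⟨h1, h2⟩ <;> rw [← h1, ← h2] <;> simp
  · simp only [src_mk, tgt_true] at hc
    rcases hc with ⟨h1, h2⟩ | ⟨h1, h2⟩ <;> rw [← h1, ← h2] <;> simp

theorem mem_RE_of {e : Edg} {a b c d : ℤ} (h1 : inR a b c d (src e)) (h2 : inR a b c d (tgt e)) :
    e ∈ RE a b c d := by
  obtain ⟨x, y, _ | _⟩ := e
  · rw [mem_RE_false]; simp only [inR, src_mk, tgt_false] at h1 h2; omega
  · rw [mem_RE_true]; simp only [inR, src_mk, tgt_true] at h1 h2; omega

theorem src_of_mem_RE {e : Edg} {a b c d : ℤ} (h : e ∈ RE a b c d) : inR a b c d (src e) := by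
  obtain ⟨x, y, _ | _⟩ := e
  · rw [mem_RE_false] at h; simp only [inR, src_mk]; omega
  · rw [mem_RE_true] at h; simp only [inR, src_mk]; omega

theorem tgt_of_mem_RE {e : Edg} {a b c d : ℤ} (h : e ∈ RE a b c d) : inR a b c d (tgt e) := by
  obtain ⟨x, y, _ | _⟩ := e
  · rw [mem_RE_false] at h; simp only [inR, tgt_false]; omega
  · rw [mem_RE_true] at h; simp only [inR, tgt_true]; omega

/-- the first visit of the inner square -/
theorem hit_in {H : Set Edg} {z : Vtx} {r : ℕ} {u v : Vtx} (hu : (r : ℤ) < sd u z)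
    (h : Reach H u v) (hv : sd v z ≤ r) :
    ∃ b ∈ bdB z r, Reach (H \ ↑(blk z r)) u b := by
  have key : ∀ w, Reach H u w → (∃ b ∈ bdB z r, Reach (H \ ↑(blk z r)) u b) ∨
      ((r : ℤ) < sd w z ∧ Reach (H \ ↑(blk z r)) u w) := by
    intro w hw
    induction hw with
    | refl => exact Or.inr ⟨hu, Reach.refl _ _⟩
    | @tail w w' hw hst ih =>
      rcases ih with ih | ⟨ih1, ih2⟩
      · exact Or.inl ih
      · have hadj : Adj (H \ ↑(blk z r)) w w' := by
          obtain ⟨e, he, hc⟩ := hst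
          refine ⟨e, ⟨he, ?_⟩, hc⟩
          intro heb
          have h1 := src_of_mem_RE (Finset.mem_coe.mp heb)
          have h2 := tgt_of_mem_RE (Finset.mem_coe.mp heb)
          have : inR (z.1 - r) (z.1 + r) (z.2 - r) (z.2 + r) w := by
            rcases hc with ⟨h3, h4⟩ | ⟨h3, h4⟩
            · rw [← h3]; exact h1
            · rw [← h4]; exact h2
          have h5 : sd w z ≤ r := by
            rw [sd_le_iff, abs_le, abs_le]
            unfold inR at this
            omega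
          omega
        have hstep := adj_step hst
        have hr := ih2.trans hadj.reach
        by_cases hw' : sd w' z ≤ r
        · left
          refine ⟨w', ?_, hr⟩
          have h6 : ¬ sd w z ≤ r := by omega
          rw [sd_le_iff, abs_le, abs_le] at hw' h6
          unfold bdB
          simp only [Set.mem_ofPred_eq]
          refine ⟨abs_le.mpr (by omega), abs_le.mpr (by omega), ?_⟩
          by_contra hcon
          push Not at hcon
          have h7 : |w'.1 - z.1| < r := lt_of_le_of_ne (abs_le.mpr (by omega)) hcon.1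
          have h8 : |w'.2 - z.2| < r := lt_of_le_of_ne (abs_le.mpr (by omega)) hcon.2
          rw [abs_lt] at h7 h8
          omega
        · right
          exact ⟨by omega, hr⟩
  rcases key v h with h1 | ⟨h1, -⟩
  · exact h1
  · omega

/-- a crossing of an annulus -/
theorem annX {H : Set Edg} {z : Vtx} {r R : ℕ} (hrR : r < R) {u v : Vtx} (hu : sd u z ≤ r)
    (h : Reach H u v) (hv : (R : ℤ) ≤ sd v z) :
    ∃ a ∈ bdB z r, ∃ b ∈ bdB z R, Reach (H ∩ ↑(blk z R \ blk z r)) a b := by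
  have hrR' : (r : ℤ) < R := by exact_mod_cast hrR
  have hu' := hu
  rw [sd_le_iff, abs_le, abs_le] at hu'
  obtain ⟨w, hw1, hw2, hw3⟩ := first_exit (a := z.1 - R) (b := z.1 + R) (c := z.2 - R)
    (d := z.2 + R) (by unfold inR; omega) h (by
      by_contra hcon
      have h1 : ¬ (sd v z ≤ R - 1) := by omega
      rw [sd_le_iff, abs_le, abs_le] at h1
      omega)
  have hwR : w ∈ bdB z R := by
    unfold bdB
    unfold inR at hw1
    simp only [Set.mem_ofPred_eq]
    refine ⟨abs_le.mpr (by omega), abs_le.mpr (by omega), ?_⟩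
    rcases hw2 with h1 | h1 | h1 | h1
    · left; rw [h1, abs_of_nonpos (by omega)]; ring
    · left; rw [h1, abs_of_nonneg (by omega)]; ring
    · right; rw [h1, abs_of_nonpos (by omega)]; ring
    · right; rw [h1, abs_of_nonneg (by omega)]; ring
  have hwsd : (r : ℤ) < sd w z := by
    have h1 : ¬ (sd w z ≤ r) := by
      rw [sd_le_iff, abs_le, abs_le]
      unfold inR at hw1
      omega
    omega
  obtain ⟨b, hb1, hb2⟩ := hit_in hwsd hw3.symm hu
  refine ⟨b, hb1, w, hwR, hb2.symm.mono ?_⟩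
  rintro e ⟨⟨he1, he2⟩, he3⟩
  refine ⟨he1, ?_⟩
  simp only [Finset.coe_sdiff, Set.mem_sdiff]
  exact ⟨he2, he3⟩

/-! ### The explored set -/

theorem mem_AA_of_reach {N : ℕ} {z : Vtx} {F : Finset Edg} {a w : Vtx} (ha : a ∈ AA N z F)
    (h : Reach (↑F ∩ ↑(RE 0 N 0 N)) a w) : w ∈ AA N z F := by
  obtain ⟨l, hl1, hl2, hl3⟩ := ha
  exact ⟨l, hl1, hl2, h.symm.trans hl3⟩

theorem FRV_sub {N : ℕ} {z : Vtx} {F : Finset Edg} :
    (↑(F ∩ RV N z F) : Set Edg) ⊆ ↑F ∩ ↑(RE 0 N 0 N) := by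
  intro e he
  simp only [Finset.coe_inter, Set.mem_inter_iff, Finset.mem_coe, RV, Finset.mem_filter] at he ⊢
  exact ⟨he.1, he.2.1⟩

theorem AA_path {N : ℕ} {z : Vtx} {F : Finset Edg} {a : Vtx} (ha : a ∈ AA N z F) :
    ∃ l, inR 0 N 0 N l ∧ Lx z l ∧ Reach (↑(F ∩ RV N z F)) a l := by
  obtain ⟨l, hl1, hl2, hl3⟩ := ha
  refine ⟨l, hl1, hl2, ?_⟩
  have h := (reach_inv (P := fun w => w ∈ AA N z F) hl3 ⟨l, hl1, hl2, hl3⟩
    (fun w w' _ h1 h2 => mem_AA_of_reach h2 h1.reach)).1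
  refine h.mono ?_
  rintro e ⟨⟨he1, he2⟩, he3, -⟩
  simp only [Finset.coe_inter, Set.mem_inter_iff, Finset.mem_coe, RV, Finset.mem_filter]
  exact ⟨he1, he2, Or.inl he3⟩

/-- (N1) -/
theorem n1 {N g s : ℕ} {z : Vtx} {F : Finset Edg} (hg : 0 < g) (hgs : 64 * g ≤ s)
    (hN : Nice z g s (F ∩ RV N z F)) {a : Vtx} (ha : a ∈ AA N z F) (h1 : 4 * (s : ℤ) ≤ sd a z)
    (h2 : sd a z ≤ 20 * s) : a.1 ≤ z.1 + g := by
  obtain ⟨hX1, hX2, hL1, hL2, -⟩ := hN
  by_contra hcon
  push Not at hcon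
  have hgZ : (0 : ℤ) < g := by exact_mod_cast hg
  have hgsZ : (64 : ℤ) * g ≤ s := by exact_mod_cast hgs
  obtain ⟨G, hG⟩ : ∃ G, G = F ∩ RV N z F := ⟨_, rfl⟩
  obtain ⟨l, hl1, hl2, hl3⟩ := AA_path ha
  rw [← hG] at hl3 hX1 hX2 hL1 hL2
  -- the component of `a` stays in the annulus
  have hann : ∀ w, Reach (↑G) a w → 2 * (s : ℤ) < sd w z ∧ sd w z < 40 * s := by
    intro w hw
    constructor
    · by_contra hc
      push Not at hc
      obtain ⟨p, hp, q, hq, hpq⟩ := annX (r := 2 * s) (R := 4 * s) (by omega)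
        (by push_cast; exact hc) hw.symm (by push_cast; exact h1)
      exact hX1 p hp q hq hpq
    · by_contra hc
      push Not at hc
      obtain ⟨p, hp, q, hq, hpq⟩ := annX (r := 20 * s) (R := 40 * s) (by omega)
        (by push_cast; exact h2) hw (by push_cast; exact hc)
      exact hX2 p hp q hq hpq
  -- crossing of the strip
  have hl4 : l.1 ≤ z.1 := by rcases hl2 with h | h <;> omega
  have hpath := (reach_inv (P := fun w => Reach (↑G) a w) hl3 (Reach.refl _ _)
    (fun w w' _ h1 h2 => h2.trans h1.reach)).1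
  obtain ⟨y1, y2, k1, k2, k3, k4⟩ := sub_LR (a := z.1) (b := z.1 + g) (c := z.2 - 40 * s)
    (d := z.2 + 40 * s) (by omega) (by
      rintro x y ⟨-, h3, -⟩ _ _
      have h5 := (hann _ h3).2.le
      rw [sd_le_iff, abs_le, abs_le] at h5
      simp only [src_mk] at h5
      omega) (by
      rintro x y ⟨-, h3, h4⟩ _ _
      have h5 := (hann _ h3).2.le
      have h6 := (hann _ h4).2.le
      rw [sd_le_iff, abs_le, abs_le] at h5 h6
      simp only [src_mk, tgt_false] at h5 h6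
      omega) hpath.symm hl4 (by omega)
  -- all the vertices of the crossing are on one side
  have hstart : Reach (↑G) a (z.1, y1) :=
    hl3.trans (k4.mono (by rintro e ⟨h, -⟩; exact h))
  have hst := hann _ hstart
  have hrows : ∀ w, Reach (↑G) a w → z.1 ≤ w.1 → w.1 ≤ z.1 + g →
      z.2 + 2 * s < w.2 ∧ w.2 ≤ z.2 + 40 * s ∨ w.2 < z.2 - 2 * s ∧ z.2 - 40 * s ≤ w.2 := by
    intro w hw h3 h4
    have h5 := hann w hw
    have h6 : ¬ (sd w z ≤ 2 * s) := by omega
    have h7 := h5.2.le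
    rw [sd_le_iff, abs_le, abs_le] at h6 h7
    omega
  have k3' : Reach (↑G ∩ ↑(LRE z.1 (z.1 + g) (z.2 - 40 * s) (z.2 + 40 * s))) (z.1, y1)
      (z.1 + g, y2) := k3.mono (by rintro e ⟨⟨h, -⟩, h'⟩; exact ⟨h, h'⟩)
  have hcol : ∀ w w' : Vtx, Adj (↑G ∩ ↑(LRE z.1 (z.1 + g) (z.2 - 40 * s) (z.2 + 40 * s))) w w' →
      z.1 ≤ w'.1 ∧ w'.1 ≤ z.1 + g := by
    rintro w w' ⟨e, ⟨-, he⟩, hc⟩
    have h3 := src_of_mem_RE (LRE_subset_RE he)
    have h4 := tgt_of_mem_RE (LRE_subset_RE he)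
    unfold inR at h3 h4
    rcases hc with ⟨h5, h6⟩ | ⟨h5, h6⟩
    · rw [← h6]; omega
    · rw [← h5]; omega
  rcases hrows _ hstart le_rfl (by simp only; omega) with hside | hside
  · -- above
    have hr := reach_inv (P := fun w => Reach (↑G) a w ∧ z.1 ≤ w.1 ∧ w.1 ≤ z.1 + g ∧
      z.2 + 2 * s < w.2 ∧ w.2 ≤ z.2 + 40 * s) k3' ⟨hstart, le_rfl, by simp only; omega, hside⟩ (by
        rintro w w' - hadj ⟨p1, p2, p3, p4, p5⟩
        have hadj' : Adj (↑G) w w' := hadj.mono Set.inter_subset_left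
        have q1 := p1.trans hadj'.reach
        have q2 := hcol w w' hadj
        have q3 := hrows w' q1 q2.1 q2.2
        have q4 := adj_step hadj
        refine ⟨q1, q2.1, q2.2, ?_⟩
        omega)
    refine hL1 (LRc_of_reach (by omega) (u := (z.1, y1)) (v := (z.1 + g, y2)) (hr.1.mono ?_)
      rfl rfl)
    rintro e ⟨⟨he1, he2⟩, he3, he4⟩
    refine ⟨he1, ?_⟩
    simp only [Set.mem_ofPred_eq] at he3 he4
    exact mem_RE_of (by unfold inR; omega) (by unfold inR; omega)
  · have hr := reach_inv (P := fun w => Reach (↑G) a w ∧ z.1 ≤ w.1 ∧ w.1 ≤ z.1 + g ∧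
      w.2 < z.2 - 2 * s ∧ z.2 - 40 * s ≤ w.2) k3' ⟨hstart, le_rfl, by simp only; omega, hside⟩ (by
        rintro w w' - hadj ⟨p1, p2, p3, p4, p5⟩
        have hadj' : Adj (↑G) w w' := hadj.mono Set.inter_subset_left
        have q1 := p1.trans hadj'.reach
        have q2 := hcol w w' hadj
        have q3 := hrows w' q1 q2.1 q2.2
        have q4 := adj_step hadj
        refine ⟨q1, q2.1, q2.2, ?_⟩
        omega)
    refine hL2 (LRc_of_reach (by omega) (u := (z.1, y1)) (v := (z.1 + g, y2)) (hr.1.mono ?_)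
      rfl rfl)
    rintro e ⟨⟨he1, he2⟩, he3, he4⟩
    refine ⟨he1, ?_⟩
    simp only [Set.mem_ofPred_eq] at he3 he4
    exact mem_RE_of (by unfold inR; omega) (by unfold inR; omega)

/-- (N2) general form -/
theorem zone {G : Finset Edg} {z : Vtx} {g : ℕ} {r0 r1 r2 r3 : ℤ} {A : Set Vtx} {u l : Vtx}
    (hr01 : r0 < r1) (hr23 : r2 < r3)
    (hA : ∀ w, Reach (↑G) u w → w ∈ A)
    (hN1 : ∀ w, Reach (↑G) u w → r0 ≤ w.2 → w.2 ≤ r3 → z.1 ≤ w.1 → w.1 ≤ z.1 + g + 1 →
      w.1 ≤ z.1 + g)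
    (hu : z.1 ≤ u.1) (hu1 : u.1 ≤ z.1 + g) (hu2 : r1 ≤ u.2 ∧ u.2 ≤ r2)
    (hb : ¬ TBc z.1 (z.1 + g) r0 r1 G) (ht : ¬ TBc z.1 (z.1 + g) r2 r3 G)
    (hl : Reach (↑G) u l) :
    (∃ h : ℤ, r0 ≤ h ∧ h ≤ r3 ∧
      Reach (GrV (A ∩ {w | inR (z.1 - 1) (z.1 + g) r0 r3 w})) u (z.1 - 1, h)) ∨
    (inR z.1 (z.1 + g) r0 r3 l ∧
      Reach (GrV (A ∩ {w | inR (z.1 - 1) (z.1 + g) r0 r3 w})) u l) := by
  have key : ∀ w, Reach (↑G) u w → (∃ h : ℤ, r0 ≤ h ∧ h ≤ r3 ∧
      Reach (GrV (A ∩ {w | inR (z.1 - 1) (z.1 + g) r0 r3 w})) u (z.1 - 1, h)) ∨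
    (inR z.1 (z.1 + g) r0 r3 w ∧
      Reach (↑G ∩ GrV (A ∩ {w | inR z.1 (z.1 + g) r0 r3 w})) u w) := by
    intro w hw
    induction hw with
    | refl => exact Or.inr ⟨by unfold inR; omega, Reach.refl _ _⟩
    | @tail w w' hw hst ih =>
      rcases ih with ih | ⟨ih1, ih2⟩
      · exact Or.inl ih
      · have ih3 : Reach (↑G ∩ ↑(RE z.1 (z.1 + g) r0 r3)) u w := by
          refine ih2.mono ?_
          rintro e ⟨he1, he2, he3⟩
          exact ⟨he1, mem_RE_of he2.2 he3.2⟩
        have hstep := adj_step hst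
        have hw' : Reach (↑G) u w' := hw.trans hst.reach
        -- `w` is not in the top or bottom row
        have hnt : w.2 < r3 := by
          by_contra hc
          push Not at hc
          obtain ⟨x1, x2, k1, k2, k3, -⟩ := sub_TB (a := z.1) (b := z.1 + g)
            (c := r2) (d := r3) hr23
            (by rintro x y ⟨-, h⟩ _ _; simp only [mem_coe, mem_RE_false] at h; omega)
            (by rintro x y ⟨-, h⟩ _ _; simp only [mem_coe, mem_RE_true] at h; omega)
            ih3 hu2.2 hc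
          exact ht ⟨x1, x2, k1, k2, k3.mono (by rintro e ⟨⟨h7, -⟩, h8⟩; exact ⟨h7, h8⟩)⟩
        have hnb : r0 < w.2 := by
          by_contra hc
          push Not at hc
          obtain ⟨x1, x2, k1, k2, k3, -⟩ := sub_TB (a := z.1) (b := z.1 + g)
            (c := r0) (d := r1) hr01
            (by rintro x y ⟨-, h⟩ _ _; simp only [mem_coe, mem_RE_false] at h; omega)
            (by rintro x y ⟨-, h⟩ _ _; simp only [mem_coe, mem_RE_true] at h; omega)
            ih3.symm hc hu2.1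
          exact hb ⟨x1, x2, k1, k2, k3.mono (by rintro e ⟨⟨h7, -⟩, h8⟩; exact ⟨h7, h8⟩)⟩
        unfold inR at ih1
        by_cases hcol : z.1 ≤ w'.1
        · have h3 := hN1 w' hw' (by omega) (by omega) hcol (by omega)
          right
          have hin : inR z.1 (z.1 + g) r0 r3 w' := by unfold inR; omega
          refine ⟨hin, ih2.trans (Adj.reach ?_)⟩
          obtain ⟨e, he, hc⟩ := hst
          refine ⟨e, ⟨he, ?_⟩, hc⟩
          rcases hc with ⟨h4, h5⟩ | ⟨h4, h5⟩
          · exact ⟨by rw [h4]; exact ⟨hA w hw, by unfold inR; exact ih1⟩, by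
              rw [h5]; exact ⟨hA w' hw', hin⟩⟩
          · exact ⟨by rw [h4]; exact ⟨hA w' hw', hin⟩, by
              rw [h5]; exact ⟨hA w hw, by unfold inR; exact ih1⟩⟩
        · left
          refine ⟨w'.2, by omega, by omega, ?_⟩
          have hwe : (z.1 - 1, w'.2) = w' := by
            ext
            · simp only; omega
            · rfl
          rw [hwe]
          refine Reach.trans (v := w) (ih2.mono ?_) (Adj.reach ?_)
          · rintro e ⟨-, ⟨he1, he2⟩, he3, he4⟩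
            unfold inR at he2 he4
            simp only [Set.mem_ofPred_eq] at he2 he4
            refine ⟨⟨he1, ?_⟩, he3, ?_⟩
            · simp only [Set.mem_ofPred_eq]; unfold inR; omega
            · simp only [Set.mem_ofPred_eq]; unfold inR; omega
          · obtain ⟨e, he, hc⟩ := hst
            refine ⟨e, ?_, hc⟩
            have q1 : w ∈ A ∩ {w | inR (z.1 - 1) (z.1 + g) r0 r3 w} :=
              ⟨hA w hw, by simp only [Set.mem_ofPred_eq]; unfold inR; omega⟩
            have q2 : w' ∈ A ∩ {w | inR (z.1 - 1) (z.1 + g) r0 r3 w} :=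
              ⟨hA w' hw', by simp only [Set.mem_ofPred_eq]; unfold inR; omega⟩
            rcases hc with ⟨h4, h5⟩ | ⟨h4, h5⟩
            · exact ⟨by rw [h4]; exact q1, by rw [h5]; exact q2⟩
            · exact ⟨by rw [h4]; exact q2, by rw [h5]; exact q1⟩
  rcases key l hl with h | ⟨h1, h2⟩
  · exact Or.inl h
  · right
    refine ⟨h1, h2.mono ?_⟩
    rintro e ⟨-, ⟨he1, he2⟩, he3, he4⟩
    unfold inR at he2 he4
    simp only [Set.mem_ofPred_eq] at he2 he4
    refine ⟨⟨he1, ?_⟩, he3, ?_⟩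
    · simp only [Set.mem_ofPred_eq]; unfold inR; omega
    · simp only [Set.mem_ofPred_eq]; unfold inR; omega

/-- moving in a row to the column `z.1 - 1` -/
theorem row_to (S : Set Vtx) (y : ℤ) (a : ℤ) (n : ℕ)
    (h : ∀ x : ℤ, a ≤ x → x ≤ a + n → ((x, y) : Vtx) ∈ S) : Reach (GrV S) (a, y) (a + n, y) := by
  induction n with
  | zero => simpa using Reach.refl (GrV S) (a, y)
  | succ n ih =>
    refine (ih (fun x h1 h2 => h x h1 (by push_cast; omega))).trans (Adj.reach ?_)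
    refine ⟨(a + n, y, true), ⟨?_, ?_⟩, Or.inl ⟨?_, ?_⟩⟩
    · simp only [src_mk]; exact h _ (by omega) (by push_cast; omega)
    · simp only [tgt_true]; exact h _ (by omega) (by push_cast; omega)
    · simp
    · simp only [tgt_true, Prod.mk.injEq, and_true]; push_cast; omega

/-- from a vertex to the left of `z` (in the zone) one reaches the column `z.1 - 1` -/
theorem left_to {Ob : Set Vtx} {z : Vtx} (hlft : ∀ u : Vtx, u.1 < z.1 → u ∈ Ob)
    {x0 x1 r0 r3 : ℤ} (hx1 : z.1 - 1 ≤ x1) {u : Vtx} (hu : u.1 < z.1) (hu0 : x0 ≤ u.1)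
    (hr : r0 ≤ u.2 ∧ u.2 ≤ r3) :
    Reach (GrV (Ob ∩ {w | inR x0 x1 r0 r3 w})) u (z.1 - 1, u.2) := by
  obtain ⟨n, hn⟩ : ∃ n : ℕ, u.1 + n = z.1 - 1 := ⟨(z.1 - 1 - u.1).toNat, by omega⟩
  have h := row_to (Ob ∩ {w | inR x0 x1 r0 r3 w}) u.2 u.1 n (by
    intro x h1 h2
    refine ⟨hlft _ (by simp only; omega), ?_⟩
    simp only [Set.mem_ofPred_eq]; unfold inR; simp only; omega)
  rw [hn] at h
  exact h

theorem s_ndet : S_NDET := by
  intro N g s z F hg hgs hz hz1 hz2 hzA hNice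
  have hgZ : (0 : ℤ) < g := by exact_mod_cast hg
  have hgsZ : (64 : ℤ) * g ≤ s := by exact_mod_cast hgs
  have hlft : ∀ u : Vtx, u.1 < z.1 → u ∈ ObS N z F := fun u h => Or.inr (Or.inr (Or.inl h))
  unfold inR at hz
  have hN1 := fun (a : Vtx) (ha : a ∈ AA N z F) h1 h2 => n1 hg hgs hNice ha h1 h2
  obtain ⟨-, -, -, -, hbar⟩ := hNice
  -- common part of `top` and `low`
  have main : ∀ (a : ℕ) (r0 r1 r2 r3 : ℤ), (a = 6 * s ∨ a = 16 * s) → r0 < r1 → r2 < r3 →
      0 ≤ a →
      ¬ TBc z.1 (z.1 + g) r0 r1 (F ∩ RV N z F) → ¬ TBc z.1 (z.1 + g) r2 r3 (F ∩ RV N z F) →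
      (∀ w : Vtx, z.1 - 1 ≤ w.1 → w.1 ≤ z.1 + a + s → r0 ≤ w.2 → w.2 ≤ r3 →
        4 * (s : ℤ) ≤ sd w z ∧ sd w z ≤ 20 * s) →
      ∀ u ∈ ObS N z F, inR (z.1 - s) (z.1 + a + s) r1 r2 u → r0 ≤ u.2 → u.2 ≤ r3 → 0 ≤ u.2 →
        u.2 ≤ N → ∃ h : ℤ, r0 ≤ h ∧ h ≤ r3 ∧
        Reach (GrV (ObS N z F ∩ {w | inR (z.1 - s) (z.1 + a + s) r0 r3 w})) u (z.1 - 1, h) := by
    intro a r0 r1 r2 r3 ha hr01 hr23 ha0 hb ht hsd u hu hin hu0 hu3 hu0' huN
    unfold inR at hin
    by_cases hcol : u.1 < z.1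
    · exact ⟨u.2, hu0, hu3, left_to hlft (by omega) hcol (by omega) ⟨hu0, hu3⟩⟩
    push Not at hcol
    rcases hu with hu | hu | hu
    · -- explored
      obtain ⟨l, hl1, hl2, hl3⟩ := AA_path hu
      have hAA : ∀ w, Reach (↑(F ∩ RV N z F)) u w → w ∈ AA N z F := fun w hw =>
        mem_AA_of_reach hu (hw.mono FRV_sub)
      have hu4 : u.1 ≤ z.1 + g := by
        have h5 := hsd u (by omega) (by omega) hu0 hu3
        exact hN1 u hu h5.1 h5.2
      have haZ : (g : ℤ) + 1 ≤ a + s := by omega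
      rcases zone hr01 hr23 hAA (fun w hw h1 h2 h3 h4 => by
          have h5 := hsd w (by omega) (by omega) h1 h2
          exact hN1 w (hAA w hw) h5.1 h5.2) hcol hu4 hin.2 hb ht hl3 with ⟨h, h1, h2, h3⟩ | ⟨h1, h2⟩
      · refine ⟨h, h1, h2, h3.mono ?_⟩
        rintro e ⟨⟨he1, he2⟩, he3, he4⟩
        unfold inR at he2 he4
        simp only [Set.mem_ofPred_eq] at he2 he4
        refine ⟨⟨Or.inl he1, ?_⟩, Or.inl he3, ?_⟩
        · simp only [Set.mem_ofPred_eq]; unfold inR; omega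
        · simp only [Set.mem_ofPred_eq]; unfold inR; omega
      · unfold inR at h1
        refine ⟨l.2, by omega, by omega, Reach.trans (v := l) (h2.mono ?_) (Adj.reach
          ⟨(z.1 - 1, l.2, true), ⟨?_, ?_⟩, Or.inr ⟨?_, ?_⟩⟩)⟩
        · rintro e ⟨⟨he1, he2⟩, he3, he4⟩
          unfold inR at he2 he4
          simp only [Set.mem_ofPred_eq] at he2 he4
          refine ⟨⟨Or.inl he1, ?_⟩, Or.inl he3, ?_⟩
          · simp only [Set.mem_ofPred_eq]; unfold inR; omega
          · simp only [Set.mem_ofPred_eq]; unfold inR; omega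
        · simp only [src_mk]
          refine ⟨hlft _ (by simp only; omega), ?_⟩
          simp only [Set.mem_ofPred_eq]; unfold inR; simp only; omega
        · have hl5 : l.1 = z.1 := by rcases hl2 with h | h <;> omega
          have hl6 : ((z.1 - 1 + 1, l.2) : Vtx) = l := by
            ext
            · simp only; omega
            · rfl
          simp only [tgt_true]
          rw [hl6]
          refine ⟨Or.inr (Or.inr hl2), ?_⟩
          simp only [Set.mem_ofPred_eq]; unfold inR; omega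
        · simp
        · have hl5 : l.1 = z.1 := by rcases hl2 with h | h <;> omega
          ext
          · simp only [tgt_true]; omega
          · simp
    · -- outside of the box
      exfalso
      apply hu
      unfold inR
      rcases ha with ha | ha <;> omega
    · -- smaller
      rcases hu with hu | hu
      · omega
      · refine ⟨u.2, hu0, hu3, Adj.reach ⟨(z.1 - 1, u.2, true), ⟨?_, ?_⟩, Or.inr ⟨?_, ?_⟩⟩⟩
        · simp only [src_mk]
          refine ⟨hlft _ (by simp only; omega), ?_⟩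
          simp only [Set.mem_ofPred_eq]; unfold inR; simp only; omega
        · simp only [tgt_true]
          refine ⟨Or.inr (Or.inr (Or.inr ⟨by simp only; omega, hu.2⟩)), ?_⟩
          simp only [Set.mem_ofPred_eq]; unfold inR; simp only; omega
        · simp
        · ext
          · simp only [tgt_true]; omega
          · simp
  have hsZ : (0 : ℤ) < s := by omega
  have hk : ∀ a : ℕ, a = 6 * s ∨ a = 16 * s → ∃ k : ℕ, (k = 5 ∨ k = 15) ∧ (a : ℤ) = (k + 1) * s := by
    rintro a (ha | ha)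
    · exact ⟨5, Or.inl rfl, by rw [ha]; push_cast; ring⟩
    · exact ⟨15, Or.inr rfl, by rw [ha]; push_cast; ring⟩
  constructor
  · exact hlft
  · intro u hu
    refine Or.inr (Or.inl ?_)
    unfold inR; omega
  · rintro (h | h | h)
    · exact hzA h
    · apply h; unfold inR; omega
    · rcases h with h | h <;> omega
  · intro u h1 h2 h3 h4 h5
    have h6 := h2
    rw [sd_le_iff, abs_le, abs_le] at h6
    rcases h5 with h5 | h5 | h5
    · have := hN1 u h5 h1 h2
      omega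
    · apply h5; unfold inR; omega
    · rcases h5 with h5 | h5 <;> omega
  · intro a ha u hu hin
    obtain ⟨k, hk1, hk2⟩ := hk a ha
    have hbk := hbar k (by omega)
    have hbk2 := hbar (k + 2) (by omega)
    have e1 : z.2 + (a : ℤ) - s = z.2 + k * s := by rw [hk2]; ring
    have e2 : z.2 + (a : ℤ) = z.2 + (k + 1) * s := by rw [hk2]
    have e3 : z.2 + (a : ℤ) + s = z.2 + ((k + 2 : ℕ) : ℤ) * s := by rw [hk2]; push_cast; ring
    have e4 : z.2 + (a : ℤ) + 2 * s = z.2 + (((k + 2 : ℕ) : ℤ) + 1) * s := by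
      rw [hk2]; push_cast; ring
    have hin' := hin
    unfold inR at hin'
    refine main a (z.2 + a - s) (z.2 + a) (z.2 + a + s) (z.2 + a + 2 * s) ha (by omega) (by omega)
      (by omega) ?_ ?_ ?_ u hu hin (by omega) (by omega) (by omega) (by omega)
    · rw [e1, e2]; exact hbk.1
    · rw [e3, e4]; exact hbk2.1
    · intro w h1 h2 h3 h4
      constructor
      · have : w.2 - z.2 ≤ sd w z := (le_abs_self _).trans (le_max_right _ _)
        omega
      · rw [sd_le_iff, abs_le, abs_le]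
        omega
  · intro a ha u hu hin hu0
    obtain ⟨k, hk1, hk2⟩ := hk a ha
    have hbk := hbar k (by omega)
    have hbk2 := hbar (k + 2) (by omega)
    have e1 : z.2 - (a : ℤ) + s = z.2 - k * s := by rw [hk2]; ring
    have e2 : z.2 - (a : ℤ) = z.2 - (k + 1) * s := by rw [hk2]
    have e3 : z.2 - (a : ℤ) - s = z.2 - ((k + 2 : ℕ) : ℤ) * s := by rw [hk2]; push_cast; ring
    have e4 : z.2 - (a : ℤ) - 2 * s = z.2 - (((k + 2 : ℕ) : ℤ) + 1) * s := by
      rw [hk2]; push_cast; ring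
    have hin' := hin
    unfold inR at hin'
    refine main a (z.2 - a - 2 * s) (z.2 - a - s) (z.2 - a) (z.2 - a + s) ha (by omega) (by omega)
      (by omega) ?_ ?_ ?_ u hu hin (by omega) (by omega) (by omega) (by omega)
    · rw [e3, e4]; exact hbk2.2
    · rw [e1, e2]; exact hbk.2
    · intro w h1 h2 h3 h4
      constructor
      · have : z.2 - w.2 ≤ sd w z := by
          have h5 : -(w.2 - z.2) ≤ |w.2 - z.2| := neg_le_abs _
          have h6 : |w.2 - z.2| ≤ sd w z := le_max_right _ _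
          omega
        omega
      · rw [sd_le_iff, abs_le, abs_le]
        omega

end Pool.Agent.W2helper82.OA.P5
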