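import Pool.Agent.W2helper82.OA.Stm

/-!
# OA piece P9 : the connection of `v` with the crossings around the local box (`S_CON`)
-/

set_option autoImplicit false

namespace Pool.Agent.W2helper82.OA.P9

open H974 H12S Finset H984P H984N
open Pool.Agent.Y989.FR (Awy AE)
open Pool.Agent.W2helper82.OA

/-- a path along which an invariant is preserved -/
theorem reach_inv {G : Set Edg} {P : Vtx → Prop} {u v : Vtx} (h : Reach G u v) (hu : P u)
    (hs : ∀ w w', Reach G u w → Adj G w w' → P w → P w') :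
    Reach (G ∩ GrV {w | P w}) u v ∧ P v := by
  have key : ∀ w, Reach G u w → Reach (G ∩ GrV {w | P w}) u w ∧ P w := by
    intro w hw
    induction hw with
    | refl => exact ⟨Reach.refl _ _, hu⟩
    | @tail w w' hw hst ih =>
      have hw' := hs w w' hw hst ih.2
      refine ⟨ih.1.trans (Adj.reach ?_), hw'⟩
      obtain ⟨e, he, hc⟩ := hst
      refine ⟨e, ⟨he, ?_⟩, hc⟩
      rcases hc with ⟨h1, h2⟩ | ⟨h1, h2⟩
      · exact ⟨by rw [h1]; exact ih.2, by rw [h2]; exact hw'⟩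
      · exact ⟨by rw [h1]; exact hw', by rw [h2]; exact ih.2⟩
  exact key v h

/-- adjacent vertices differ by a unit step -/
theorem adj_step {G : Set Edg} {w w' : Vtx} (h : Adj G w w') :
    (w'.1 = w.1 ∧ (w'.2 = w.2 + 1 ∨ w'.2 = w.2 - 1)) ∨
      (w'.2 = w.2 ∧ (w'.1 = w.1 + 1 ∨ w'.1 = w.1 - 1)) := by
  obtain ⟨⟨x, y, _ | _⟩, -, hc⟩ := h
  · simp only [src_mk, tgt_false] at hc
    rcases hc with ⟨h1, h2⟩ | ⟨h1, h2⟩ <;> rw [← h1, ← h2] <;> simp
  · simp only [src_mk, tgt_true] at hc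
    rcases hc with ⟨h1, h2⟩ | ⟨h1, h2⟩ <;> rw [← h1, ← h2] <;> simp

theorem mem_RE_of {e : Edg} {a b c d : ℤ} (h1 : inR a b c d (src e)) (h2 : inR a b c d (tgt e)) :
    e ∈ RE a b c d := by
  obtain ⟨x, y, _ | _⟩ := e
  · rw [mem_RE_false]; simp only [inR, src_mk, tgt_false] at h1 h2; omega
  · rw [mem_RE_true]; simp only [inR, src_mk, tgt_true] at h1 h2; omega

theorem src_of_mem_RE {e : Edg} {a b c d : ℤ} (h : e ∈ RE a b c d) : inR a b c d (src e) := by
  obtain ⟨x, y, _ | _⟩ := e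
  · rw [mem_RE_false] at h; simp only [inR, src_mk]; omega
  · rw [mem_RE_true] at h; simp only [inR, src_mk]; omega

theorem tgt_of_mem_RE {e : Edg} {a b c d : ℤ} (h : e ∈ RE a b c d) : inR a b c d (tgt e) := by
  obtain ⟨x, y, _ | _⟩ := e
  · rw [mem_RE_false] at h; simp only [inR, tgt_false]; omega
  · rw [mem_RE_true] at h; simp only [inR, tgt_true]; omega

theorem coe_RE_subset {a b c d a' b' c' d' : ℤ} (h1 : a' ≤ a) (h2 : b ≤ b') (h3 : c' ≤ c)
    (h4 : d ≤ d') : (↑(RE a b c d) : Set Edg) ⊆ ↑(RE a' b' c' d') := by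
  exact_mod_cast RE_subset h1 h2 h3 h4

theorem s_con : S_CON := by
  intro o g s c v F hg hgs hc1 hc2 hCen hOut hT p q hp2 hq2 hp hq hpq
  have hgZ : (2 : ℤ) ≤ g := by exact_mod_cast hg
  have hgsZ : (64 : ℤ) * g ≤ s := by exact_mod_cast hgs
  have hc1Z : (10 : ℤ) * g ≤ c := by exact_mod_cast hc1
  have hc2Z : (c : ℤ) + 10 * g ≤ s := by exact_mod_cast hc2
  obtain ⟨hCen1, hCen2⟩ := hCen
  have hv1 : 7 * (s : ℤ) ≤ 16 * (v.1 - o.1) ∧ 16 * (v.1 - o.1) ≤ 9 * s := by
    have := abs_le.mp (show |2 * (v.1 - o.1) - s| ≤ |2 * (v.1 - o.1) - s| from le_rfl)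
    omega
  have hv2 : 7 * (s : ℤ) ≤ 16 * (v.2 - o.2) ∧ 16 * (v.2 - o.2) ≤ 9 * s := by
    have := abs_le.mp (show |2 * (v.2 - o.2) - s| ≤ |2 * (v.2 - o.2) - s| from le_rfl)
    omega
  obtain ⟨⟨ty, ty', ht1, ht2, ht3⟩, ⟨by_, by', hb1, hb2, hb3⟩, -, ⟨lx, lx', hl1, hl2, hl3⟩,
    ⟨mx, mx', hm1, hm2, hm3⟩⟩ := hT
  obtain ⟨w, hw1, hw2, hw3⟩ := hOut
  -- monotonicity of the region
  have big : ∀ {a b c d : ℤ}, o.1 - g ≤ a → b ≤ o.1 + 2 * s → o.2 - 2 * s ≤ c → d ≤ o.2 + 7 * s →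
      (↑F ∩ ↑(RE a b c d) : Set Edg) ⊆
        ↑F ∩ ↑(RE (o.1 - g) (o.1 + 2 * s) (o.2 - 2 * s) (o.2 + 7 * s)) := by
    intro a b c d h1 h2 h3 h4
    exact Set.inter_subset_inter_right _ (coe_RE_subset h1 h2 h3 h4)
  have ht3' : Reach (↑F ∩ ↑(RE (o.1 - g) (o.1 + 2 * s) (o.2 + s + 1) (o.2 + 2 * s)))
      (o.1 - g, ty) (o.1 + 2 * s, ty') :=
    ht3.mono (Set.inter_subset_inter_right _ (by exact_mod_cast LRE_subset_RE))
  have hb3' : Reach (↑F ∩ ↑(RE (o.1 - g) (o.1 + 2 * s) (o.2 - s) (o.2 - 1)))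
      (o.1 - g, by_) (o.1 + 2 * s, by') :=
    hb3.mono (Set.inter_subset_inter_right _ (by exact_mod_cast LRE_subset_RE))
  have hl3' : Reach (↑F ∩ ↑(RE (o.1 - g) (o.1 - 1) (o.2 + c + 4 * g) (o.2 + 2 * s)))
      (lx, o.2 + c + 4 * g) (lx', o.2 + 2 * s) :=
    hl3.mono (Set.inter_subset_inter_right _ (by exact_mod_cast TBE_subset_RE))
  have hm3' : Reach (↑F ∩ ↑(RE (o.1 - g) (o.1 - 1) (o.2 - s) (o.2 + c - 4 * g)))
      (mx, o.2 - s) (mx', o.2 + c - 4 * g) :=
    hm3.mono (Set.inter_subset_inter_right _ (by exact_mod_cast TBE_subset_RE))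
  have hpq' : Reach (↑F ∩ ↑(RE (o.1 + s + 1) (o.1 + 2 * s) (o.2 - 2 * s) (o.2 + 7 * s))) p q :=
    hpq.mono (Set.inter_subset_inter_right _ (by exact_mod_cast TBE_subset_RE))
  -- the top crossing and the right crossing
  have hTp : Reach (↑F ∩ ↑(RE (o.1 - g) (o.1 + 2 * s) (o.2 - 2 * s) (o.2 + 7 * s)))
      (o.1 - g, ty) p :=
    cross_meet (by omega) (by omega) (by omega) (by omega) (by omega) (by omega) ht3'
      (by simp only; omega) (by simp only; omega) hpq' (by omega) (by omega)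
  have hBp : Reach (↑F ∩ ↑(RE (o.1 - g) (o.1 + 2 * s) (o.2 - 2 * s) (o.2 + 7 * s)))
      (o.1 - g, by_) p :=
    cross_meet (by omega) (by omega) (by omega) (by omega) (by omega) (by omega) hb3'
      (by simp only; omega) (by simp only; omega) hpq' (by omega) (by omega)
  have hTL : Reach (↑F ∩ ↑(RE (o.1 - g) (o.1 + 2 * s) (o.2 - 2 * s) (o.2 + 7 * s)))
      (o.1 - g, ty) (lx, o.2 + c + 4 * g) := by
    refine Reach.mono (big (a := o.1 - g) (b := o.1 + 2 * s) (c := o.2 + c + 4 * g)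
      (d := o.2 + 2 * s) (by omega) (by omega) (by omega) (by omega)) ?_
    exact cross_meet (a := o.1 - g) (b := o.1 - 1) (c := o.2 + s + 1) (d := o.2 + 2 * s)
      (by omega) (by omega) (by omega) (by omega) (by omega) (by omega) ht3'
      (by simp only; omega) (by simp only; omega) hl3' (by simp only; omega) (by simp only; omega)
  have hBM : Reach (↑F ∩ ↑(RE (o.1 - g) (o.1 + 2 * s) (o.2 - 2 * s) (o.2 + 7 * s)))
      (o.1 - g, by_) (mx, o.2 - s) := by
    refine Reach.mono (big (a := o.1 - g) (b := o.1 + 2 * s) (c := o.2 - s)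
      (d := o.2 + c - 4 * g) (by omega) (by omega) (by omega) (by omega)) ?_
    exact cross_meet (a := o.1 - g) (b := o.1 - 1) (c := o.2 - s) (d := o.2 - 1)
      (by omega) (by omega) (by omega) (by omega) (by omega) (by omega) hb3'
      (by simp only; omega) (by simp only; omega) hm3' (by simp only; omega) (by simp only; omega)
  have hw3' : Reach (↑F ∩ ↑(RE (o.1 - g) (o.1 + 2 * s) (o.2 - s) (o.2 + 2 * s))) v w :=
    hw3.mono (by rintro e ⟨h1, h2, -⟩; exact ⟨h1, h2⟩)
  unfold inR at hw1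
  rcases hw2 with hw2 | hw2 | hw2 | hw2
  · -- left side
    have hnA : ¬ AV o g c v := by
      unfold AV inR; omega
    have hinv := reach_inv (P := fun u => ¬ AV o g c u) hw3 hnA (by
      rintro a b - ⟨e, ⟨-, -, he1, he2⟩, hc⟩ -
      rcases hc with ⟨h1, h2⟩ | ⟨h1, h2⟩
      · rw [← h2]; exact he2
      · rw [← h1]; exact he1)
    have hnAw : ¬ AV o g c w := hinv.2
    obtain ⟨y1, y2, k1, k2, k3, k4⟩ := sub_LR (a := o.1 - g) (b := o.1 - 1) (c := o.2 - s)
      (d := o.2 + 2 * s) (by omega)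
      (by rintro x y ⟨-, h, -⟩ _ _; simp only [mem_RE_true] at h; omega)
      (by rintro x y ⟨-, h, -⟩ _ _; simp only [mem_RE_false] at h; omega)
      hw3.symm hw2.le (by omega)
    have hinv2 := reach_inv (P := fun u => ¬ AV o g c u) k4 hnAw (by
      rintro a b - ⟨e, ⟨-, -, he1, he2⟩, hc⟩ -
      rcases hc with ⟨h1, h2⟩ | ⟨h1, h2⟩
      · rw [← h2]; exact he2
      · rw [← h1]; exact he1)
    have hnA1 : ¬ AV o g c (o.1 - g, y1) := hinv2.2
    -- `v` is joined to `(o.1 - g, y1)`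
    have hvy : Reach (↑F ∩ ↑(RE (o.1 - g) (o.1 + 2 * s) (o.2 - 2 * s) (o.2 + 7 * s))) v
        (o.1 - g, y1) := by
      refine Reach.trans (hw3'.mono (big (by omega) (by omega) (by omega) (by omega)))
        (k4.mono ?_)
      rintro e ⟨h1, h2, -⟩
      exact big (a := o.1 - g) (b := o.1 + 2 * s) (c := o.2 - s) (d := o.2 + 2 * s)
        (by omega) (by omega) (by omega) (by omega) ⟨h1, h2⟩
    have hk3 : ∀ e : Edg, e ∈ ({e | e ∈ F ∧ e ∈ RE (o.1 - g) (o.1 + 2 * s) (o.2 - s)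
        (o.2 + 2 * s) ∧ ¬ AV o g c (src e) ∧ ¬ AV o g c (tgt e)} ∩
        ↑(LRE (o.1 - g) (o.1 - 1) (o.2 - s) (o.2 + 2 * s)) : Set Edg) →
        e ∈ F ∧ inR (o.1 - g) (o.1 - 1) (o.2 - s) (o.2 + 2 * s) (src e) ∧
        inR (o.1 - g) (o.1 - 1) (o.2 - s) (o.2 + 2 * s) (tgt e) ∧
        ¬ AV o g c (src e) ∧ ¬ AV o g c (tgt e) := by
      rintro e ⟨⟨h1, -, h2, h3⟩, h4⟩
      have h5 := LRE_subset_RE (Finset.mem_coe.mp h4)
      exact ⟨h1, src_of_mem_RE h5, tgt_of_mem_RE h5, h2, h3⟩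
    have hnA2 := hnA1
    unfold AV inR at hnA2
    simp only at hnA2
    by_cases hside : o.2 + c + 8 * g < y1
    · -- above the window
      have hr := reach_inv (P := fun u : Vtx => o.2 + c + 8 * g < u.2) k3 hside (by
        rintro a b - hadj ha
        have hst := adj_step hadj
        obtain ⟨e, he, hc⟩ := hadj
        obtain ⟨-, h1, h2, h3, h4⟩ := hk3 e he
        have h5 : inR (o.1 - g) (o.1 - 1) (o.2 - s) (o.2 + 2 * s) b ∧ ¬ AV o g c b := by
          rcases hc with ⟨h6, h7⟩ | ⟨h6, h7⟩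
          · rw [← h7]; exact ⟨h2, h4⟩
          · rw [← h6]; exact ⟨h1, h3⟩
        unfold AV inR at h5
        omega)
      have hpath : Reach (↑F ∩ ↑(RE (o.1 - g) (o.1 - 1) (o.2 + c + 8 * g + 1) (o.2 + 2 * s)))
          (o.1 - g, y1) (o.1 - 1, y2) := by
        refine hr.1.mono ?_
        rintro e ⟨he1, he2, he3⟩
        obtain ⟨h0, h1, h2, h3, h4⟩ := hk3 e he1
        simp only [Set.mem_ofPred_eq] at he2 he3
        refine ⟨h0, ?_⟩
        unfold inR at h1 h2
        exact mem_RE_of (by unfold inR; omega) (by unfold inR; omega)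
      have hmeet : Reach (↑F ∩ ↑(RE (o.1 - g) (o.1 - 1) (o.2 + c + 4 * g) (o.2 + 2 * s)))
          (o.1 - g, y1) (lx, o.2 + c + 4 * g) :=
        cross_meet (a := o.1 - g) (b := o.1 - 1) (c := o.2 + c + 8 * g + 1) (d := o.2 + 2 * s)
          (by omega) (by omega) (by omega) (by omega) (by omega) (by omega) hpath
          (by simp only; omega) (by simp only; omega) hl3' (by simp only; omega)
          (by simp only; omega)
      exact (hvy.trans (hmeet.mono (big (by omega) (by omega) (by omega) (by omega)))).trans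
        (hTL.symm.trans hTp)
    · -- below the window
      have hside' : y1 < o.2 + c - 8 * g := by omega
      have hr := reach_inv (P := fun u : Vtx => u.2 < o.2 + c - 8 * g) k3 hside' (by
        rintro a b - hadj ha
        have hst := adj_step hadj
        obtain ⟨e, he, hc⟩ := hadj
        obtain ⟨-, h1, h2, h3, h4⟩ := hk3 e he
        have h5 : inR (o.1 - g) (o.1 - 1) (o.2 - s) (o.2 + 2 * s) b ∧ ¬ AV o g c b := by
          rcases hc with ⟨h6, h7⟩ | ⟨h6, h7⟩
          · rw [← h7]; exact ⟨h2, h4⟩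
          · rw [← h6]; exact ⟨h1, h3⟩
        unfold AV inR at h5
        omega)
      have hpath : Reach (↑F ∩ ↑(RE (o.1 - g) (o.1 - 1) (o.2 - s) (o.2 + c - 8 * g - 1)))
          (o.1 - g, y1) (o.1 - 1, y2) := by
        refine hr.1.mono ?_
        rintro e ⟨he1, he2, he3⟩
        obtain ⟨h0, h1, h2, h3, h4⟩ := hk3 e he1
        simp only [Set.mem_ofPred_eq] at he2 he3
        refine ⟨h0, ?_⟩
        unfold inR at h1 h2
        exact mem_RE_of (by unfold inR; omega) (by unfold inR; omega)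
      have hmeet : Reach (↑F ∩ ↑(RE (o.1 - g) (o.1 - 1) (o.2 - s) (o.2 + c - 4 * g)))
          (o.1 - g, y1) (mx, o.2 - s) :=
        cross_meet (a := o.1 - g) (b := o.1 - 1) (c := o.2 - s) (d := o.2 + c - 8 * g - 1)
          (by omega) (by omega) (by omega) (by omega) (by omega) (by omega) hpath
          (by simp only; omega) (by simp only; omega) hm3' (by simp only; omega)
          (by simp only; omega)
      exact (hvy.trans (hmeet.mono (big (by omega) (by omega) (by omega) (by omega)))).trans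
        (hBM.symm.trans hBp)
  · -- right side
    exact cross_meet (A := o.1 - g) (B := o.1 + 2 * s) (C := o.2 - 2 * s) (D := o.2 + 7 * s)
      (a := o.1 + s + 1) (b := o.1 + 2 * s) (c := o.2 - s) (d := o.2 + 2 * s)
      (by omega) (by omega) (by omega) (by omega) (by omega) (by omega) hw3' (by omega)
      (by omega) hpq' (by omega) (by omega)
  · -- bottom side
    have hmeet : Reach (↑F ∩ ↑(RE (o.1 - g) (o.1 + 2 * s) (o.2 - s) (o.2 + 2 * s)))
        (o.1 - g, by_) w :=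
      cross_meet (a := o.1 - g) (b := o.1 + 2 * s) (c := o.2 - s) (d := o.2 - 1)
        (by omega) (by omega) (by omega) (by omega) (by omega) (by omega) hb3'
        (by simp only; omega) (by simp only; omega) hw3'.symm (by omega) (by omega)
    exact ((hw3'.trans hmeet.symm).mono (big (by omega) (by omega) (by omega) (by omega))).trans
      hBp
  · -- top side
    have hmeet : Reach (↑F ∩ ↑(RE (o.1 - g) (o.1 + 2 * s) (o.2 - s) (o.2 + 2 * s)))
        (o.1 - g, ty) v :=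
      cross_meet (a := o.1 - g) (b := o.1 + 2 * s) (c := o.2 + s + 1) (d := o.2 + 2 * s)
        (by omega) (by omega) (by omega) (by omega) (by omega) (by omega) ht3'
        (by simp only; omega) (by simp only; omega) hw3' (by omega) (by omega)
    exact (hmeet.symm.mono (big (by omega) (by omega) (by omega) (by omega))).trans hTp

end Pool.Agent.W2helper82.OA.P9
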